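import Pool.Agent.Lib.RM26.Every

open Pool.Agent.Lib.RM26
open scoped ContDiff

/-- In every dimension `n ≥ 2`, on every bounded smooth domain and for all principal parts, the
system `L u + a v = 0`, `-b u + M v = 0`, `u = v = 0` on the boundary, has a nontrivial smooth
real solution for suitable positive smooth potentials and couplings; the unit ball with the
Laplacian is an admissible instance. -/
theorem Pool.Agent.Results.MP_f60174_an.EveryDomain.result (n : ℕ) (hn : 2 ≤ n) :
    (∀ (D : Set (E n)) (A B : Fin n → Fin n → E n → ℝ),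
      SmoothDomain D → Elliptic D A → Elliptic D B →
      ∃ c d a b u v : E n → ℝ, PosCoeff D c ∧ PosCoeff D d ∧ Positive D A c ∧ Positive D B d ∧
        PosCoeff D a ∧ PosCoeff D b ∧ ContDiff ℝ ∞ u ∧ ContDiff ℝ ∞ v ∧
        (∀ x ∈ D, divOp A c u x + a x * v x = 0 ∧ -(b x * u x) + divOp B d v x = 0) ∧
        (∀ x ∈ frontier D, u x = 0 ∧ v x = 0) ∧ ∃ x ∈ D, u x ≠ 0 ∧ v x ≠ 0) ∧
    SmoothDomain (Metric.ball (0 : E n) 1) ∧ IsConnected (frontier (Metric.ball (0 : E n) 1)) ∧
      Elliptic (Metric.ball (0 : E n) 1) fun i j _ => if i = j then 1 else 0 :=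
  ⟨fun _ _ _ hD hA hB => every hn hD hA hB, ball_ok hn⟩
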