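import Pool.Agent.Lib.RM26.PP

open Pool.Agent.Lib.RM26

/-- In every dimension `n ≥ 2`, on every bounded smooth domain and for all diffusion matrices, a
diffusive Lotka-Volterra predator-prey system with suitable positive smooth coefficients has two
different coexistence states. -/
theorem Pool.Agent.Results.MP_f60174_an.PredatorPrey.result (n : ℕ) (hn : 2 ≤ n) (D : Set (E n))
    (A B : Fin n → Fin n → E n → ℝ) (hD : SmoothDomain D) (hA : Elliptic D A) (hB : Elliptic D B) :
    ∃ l m a b c d p₁ q₁ p₂ q₂ : E n → ℝ, PosCoeff D l ∧ PosCoeff D m ∧ PosCoeff D a ∧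
      PosCoeff D b ∧ PosCoeff D c ∧ PosCoeff D d ∧ Coexist D A B l m a b c d p₁ q₁ ∧
      Coexist D A B l m a b c d p₂ q₂ ∧ ∃ x ∈ D, p₁ x ≠ p₂ x ∧ q₁ x ≠ q₂ x :=
  predator hn hD hA hB
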